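import Pool.Agent.X261.ZH.Base

set_option autoImplicit false

namespace Pool.Agent.X261.ZM

open Filter Topology Height

section
variable {L : Type*} [Field L] [NumberField L] (σ : L →+* ℂ)

lemma liou_up (x : L) (hx : x ≠ 0) : Real.log ‖σ x‖ ≤ logHeight₁ x := by
  classical
  have h1 : ‖σ x‖ ≤ mulHeight₁ x := by
    rw [NumberField.mulHeight₁_eq]
    have h2 : (1 : ℝ) ≤ ∏ᶠ v : NumberField.FinitePlace L, max (v x) 1 :=
      one_le_finprod fun _ => le_max_right _ _
    obtain ⟨v, hv⟩ : ∃ v : NumberField.InfinitePlace L, v x = ‖σ x‖ :=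
      ⟨NumberField.InfinitePlace.mk σ, NumberField.InfinitePlace.apply σ x⟩
    have h3 : ‖σ x‖ ≤ ∏ v : NumberField.InfinitePlace L, max (v x) 1 ^ v.mult := by
      rw [← Finset.mul_prod_erase Finset.univ _ (Finset.mem_univ v)]
      have h4 : (1 : ℝ) ≤ ∏ w ∈ Finset.univ.erase v, max (w x) 1 ^ w.mult :=
        Finset.prod_induction _ (fun t : ℝ => 1 ≤ t)
          (fun a b ha hb => one_le_mul_of_one_le_of_one_le ha hb) le_rfl
          (fun w _ => one_le_pow₀ (le_max_right _ _))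
      have h5 : ‖σ x‖ ≤ max (v x) 1 ^ v.mult := by
        rw [← hv]
        exact (le_max_left _ _).trans
          (le_self_pow₀ (le_max_right _ _) NumberField.InfinitePlace.mult_pos.ne')
      have h6 : 0 ≤ max (v x) 1 ^ v.mult := by positivity
      nlinarith
    have h7 : 0 ≤ ∏ v : NumberField.InfinitePlace L, max (v x) 1 ^ v.mult := by positivity
    nlinarith
  have h8 : 0 < ‖σ x‖ := norm_pos_iff.2 ((map_ne_zero σ).2 hx)
  exact Real.log_le_log h8 h1

lemma liouville (x : L) : |Real.log ‖σ x‖| ≤ logHeight₁ x := by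
  by_cases hx : x = 0
  · rw [hx, map_zero, norm_zero, Real.log_zero, abs_zero]
    exact zero_le_logHeight₁ _
  · have h1 := liou_up σ x hx
    have h2 := liou_up σ x⁻¹ (inv_ne_zero hx)
    rw [map_inv₀, norm_inv, Real.log_inv, logHeight₁_inv] at h2
    rw [abs_le]
    constructor <;> linarith

/-- a new coordinate with an independent archimedean rate -/
lemma step_arch {N : ℕ} (x : ℕ → Fin N → L) (D : ℕ) (hD : 2 ≤ D) (Λ : Set ℝ)
    (hne : ∀ F : MvPolynomial (Fin N) L, F ≠ 0 → ∀ᶠ n in atTop, MvPolynomial.eval (x n) F ≠ 0)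
    (hL : ∀ F : MvPolynomial (Fin N) L, F ≠ 0 → ∃ l ∈ Λ, Tendsto
      (fun n => Real.log ‖σ (MvPolynomial.eval (x n) F)‖ / (D : ℝ) ^ n) atTop (𝓝 l))
    (y : ℕ → L) (hy : ∀ n, y n ≠ 0) (G : ℝ)
    (hG : Tendsto (fun n => Real.log ‖σ (y n)‖ / (D : ℝ) ^ n) atTop (𝓝 G))
    (hind : ∀ l ∈ Λ, ∀ l' ∈ Λ, ∀ j j' : ℕ, l + j * G = l' + j' * G → j = j')
    (F : MvPolynomial (Fin (N + 1)) L) (hF : F ≠ 0) :
    (∀ᶠ n in atTop, MvPolynomial.eval (Fin.cons (y n) (x n)) F ≠ 0) ∧
    ∃ l ∈ Λ, ∃ j : ℕ, Tendsto (fun n => Real.log ‖σ (MvPolynomial.eval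
      (Fin.cons (y n) (x n)) F)‖ / (D : ℝ) ^ n) atTop (𝓝 (l + j * G)) := by
  classical
  have hD1 : (1 : ℝ) < D := by exact_mod_cast (by omega : 1 < D)
  obtain ⟨f, hf⟩ : ∃ f, f = MvPolynomial.finSuccEquiv L N F := ⟨_, rfl⟩
  have hf0 : f ≠ 0 := by
    rw [hf]
    exact (map_ne_zero_iff _ (MvPolynomial.finSuccEquiv L N).injective).2 hF
  have hev : ∀ n, MvPolynomial.eval (Fin.cons (y n) (x n)) F =
      ∑ k ∈ f.support, MvPolynomial.eval (x n) (f.coeff k) * y n ^ k := by
    intro n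
    rw [MvPolynomial.eval_eq_eval_mv_eval' (x n) (y n) F, ← hf, Polynomial.eval_map,
      Polynomial.eval₂_eq_sum, Polynomial.sum_def]
  have hcoef : ∀ k ∈ f.support, f.coeff k ≠ 0 := fun k hk => Polynomial.mem_support_iff.1 hk
  have hl : ∀ k : ℕ, ∃ l : ℝ, k ∈ f.support → l ∈ Λ ∧ Tendsto
      (fun n => Real.log ‖σ (MvPolynomial.eval (x n) (f.coeff k))‖ / (D : ℝ) ^ n)
      atTop (𝓝 l) := by
    intro k
    by_cases hk : k ∈ f.support
    · obtain ⟨l, h1, h2⟩ := hL _ (hcoef k hk)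
      exact ⟨l, fun _ => ⟨h1, h2⟩⟩
    · exact ⟨0, fun h => absurd h hk⟩
  choose l hl using hl
  obtain ⟨u, hu⟩ : ∃ u : ℕ → ℕ → L, u = fun k n =>
    MvPolynomial.eval (x n) (f.coeff k) * y n ^ k := ⟨_, rfl⟩
  have hune : ∀ k ∈ f.support, ∀ᶠ n in atTop, u k n ≠ 0 := by
    intro k hk
    filter_upwards [hne _ (hcoef k hk)] with n hn
    rw [hu]
    exact mul_ne_zero hn (pow_ne_zero _ (hy n))
  have hulim : ∀ k ∈ f.support, Tendsto (fun n => Real.log ‖σ (u k n)‖ / (D : ℝ) ^ n) atTop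
      (𝓝 (l k + k * G)) := by
    intro k hk
    have h1 := (hl k hk).2.add (hG.const_mul (k : ℝ))
    refine h1.congr' ?_
    filter_upwards [hne _ (hcoef k hk)] with n hn
    rw [hu]
    have h2 : ‖σ (MvPolynomial.eval (x n) (f.coeff k))‖ ≠ 0 :=
      norm_ne_zero_iff.2 ((map_ne_zero σ).2 hn)
    have h3 : ‖σ (y n)‖ ≠ 0 := norm_ne_zero_iff.2 ((map_ne_zero σ).2 (hy n))
    simp only [map_mul, map_pow, norm_mul, norm_pow]
    rw [Real.log_mul h2 (pow_ne_zero _ h3), Real.log_pow]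
    ring
  obtain ⟨k0, hk0, hmax⟩ := Finset.exists_max_image f.support (fun k => l k + k * G)
    (Polynomial.support_nonempty.2 hf0)
  have hratio : ∀ k ∈ f.support, Tendsto (fun n => σ (u k n) / σ (u k0 n)) atTop
      (𝓝 (if k = k0 then 1 else 0)) := by
    intro k hk
    by_cases hkk : k = k0
    · rw [if_pos hkk, hkk]
      refine tendsto_const_nhds.congr' ?_
      filter_upwards [hune k0 hk0] with n hn
      rw [div_self ((map_ne_zero σ).2 hn)]
    · rw [if_neg hkk]
      have hlt : l k + k * G < l k0 + k0 * G :=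
        lt_of_le_of_ne (hmax k hk) fun h => hkk (hind _ (hl k hk).1 _ (hl k0 hk0).1 _ _ h)
      have h1 := (hulim k hk).sub (hulim k0 hk0)
      have h2 : Tendsto (fun n => (D : ℝ) ^ n * (Real.log ‖σ (u k n)‖ / (D : ℝ) ^ n -
          Real.log ‖σ (u k0 n)‖ / (D : ℝ) ^ n)) atTop atBot :=
        (tendsto_pow_atTop_atTop_of_one_lt hD1).atTop_mul_neg (sub_neg.2 hlt) h1
      have h3 := Real.tendsto_exp_atBot.comp h2
      rw [tendsto_zero_iff_norm_tendsto_zero]
      refine h3.congr' ?_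
      filter_upwards [hune k hk, hune k0 hk0] with n hn hn0
      have hDn : (D : ℝ) ^ n ≠ 0 := by positivity
      have h4 : 0 < ‖σ (u k n)‖ := norm_pos_iff.2 ((map_ne_zero σ).2 hn)
      have h5 : 0 < ‖σ (u k0 n)‖ := norm_pos_iff.2 ((map_ne_zero σ).2 hn0)
      show Real.exp ((D : ℝ) ^ n * (Real.log ‖σ (u k n)‖ / (D : ℝ) ^ n -
          Real.log ‖σ (u k0 n)‖ / (D : ℝ) ^ n)) = _
      rw [← sub_div, mul_div_cancel₀ _ hDn, Real.exp_sub, Real.exp_log h4, Real.exp_log h5,
        norm_div]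
  have hsum : Tendsto (fun n => σ (MvPolynomial.eval (Fin.cons (y n) (x n)) F) / σ (u k0 n))
      atTop (𝓝 1) := by
    have h1 := tendsto_finsetSum f.support hratio
    rw [Finset.sum_ite_eq' f.support k0, if_pos hk0] at h1
    refine h1.congr fun n => ?_
    rw [← Finset.sum_div, hev n, map_sum, hu]
  have hn1 : Tendsto (fun n => ‖σ (MvPolynomial.eval (Fin.cons (y n) (x n)) F) / σ (u k0 n)‖)
      atTop (𝓝 1) := by
    have := hsum.norm
    rwa [norm_one] at this
  have hFne : ∀ᶠ n in atTop, MvPolynomial.eval (Fin.cons (y n) (x n)) F ≠ 0 := by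
    filter_upwards [hn1.eventually_const_lt (show (0 : ℝ) < 1 by norm_num)] with n hn h0
    rw [h0, map_zero, zero_div, norm_zero] at hn
    exact lt_irrefl _ hn
  refine ⟨hFne, l k0, (hl k0 hk0).1, k0, ?_⟩
  have h1 : Tendsto (fun n => Real.log ‖σ (MvPolynomial.eval (Fin.cons (y n) (x n)) F) /
      σ (u k0 n)‖ / (D : ℝ) ^ n) atTop (𝓝 0) := by
    have h2 := (Real.continuousAt_log one_ne_zero).tendsto.comp hn1
    rw [Real.log_one] at h2
    exact h2.div_atTop (tendsto_pow_atTop_atTop_of_one_lt hD1)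
  have h3 := (hulim k0 hk0).add h1
  rw [add_zero] at h3
  refine h3.congr' ?_
  filter_upwards [hFne, hune k0 hk0] with n hn hn0
  have h4 : ‖σ (MvPolynomial.eval (Fin.cons (y n) (x n)) F)‖ ≠ 0 :=
    norm_ne_zero_iff.2 ((map_ne_zero σ).2 hn)
  have h5 : ‖σ (u k0 n)‖ ≠ 0 := norm_ne_zero_iff.2 ((map_ne_zero σ).2 hn0)
  rw [norm_div, Real.log_div h4 h5]
  ring

/-- a new coordinate with a dominating height -/
lemma step_height {N : ℕ} (x : ℕ → Fin N → L) (D : ℕ) (hD : 2 ≤ D)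
    (hne : ∀ F : MvPolynomial (Fin N) L, F ≠ 0 → ∀ᶠ n in atTop, MvPolynomial.eval (x n) F ≠ 0)
    (hx : ∀ i, Tendsto (fun n => logHeight₁ (x n i) / (D : ℝ) ^ n) atTop (𝓝 0))
    (y : ℕ → L) (G : ℝ) (hG0 : 0 < G)
    (hG : Tendsto (fun n => logHeight₁ (y n) / (D : ℝ) ^ n) atTop (𝓝 G))
    (F : MvPolynomial (Fin (N + 1)) L) (hF : F ≠ 0) :
    ∀ᶠ n in atTop, MvPolynomial.eval (Fin.cons (y n) (x n)) F ≠ 0 := by
  have hD1 : (1 : ℝ) < D := by exact_mod_cast (by omega : 1 < D)
  obtain ⟨f, hf⟩ : ∃ f, f = MvPolynomial.finSuccEquiv L N F := ⟨_, rfl⟩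
  have hf0 : f ≠ 0 := by
    rw [hf]
    exact (map_ne_zero_iff _ (MvPolynomial.finSuccEquiv L N).injective).2 hF
  have hev : ∀ n, MvPolynomial.eval (Fin.cons (y n) (x n)) F =
      ∑ k ∈ Finset.range (f.natDegree + 1),
        MvPolynomial.eval (x n) (f.coeff k) * y n ^ k := by
    intro n
    rw [MvPolynomial.eval_eq_eval_mv_eval' (x n) (y n) F, ← hf, Polynomial.eval_map,
      Polynomial.eval₂_eq_sum_range]
  have hlead := hne (f.coeff f.natDegree) (Polynomial.leadingCoeff_ne_zero.2 hf0)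
  rcases Nat.eq_zero_or_pos f.natDegree with hz | hz
  · filter_upwards [hlead] with n hn
    rw [hev n, hz]
    rw [hz] at hn
    simpa using hn
  · obtain ⟨E', hD'⟩ : ∃ D, f.natDegree = D + 1 := ⟨f.natDegree - 1, by omega⟩
    obtain ⟨C, hC, hroot⟩ := Pool.Agent.X261.ZH.root_le (K := L) E'
    choose E hE0 hE using fun k : ℕ => Pool.Agent.X261.ZH.mv_bound (f.coeff k)
    have hlim : Tendsto (fun n => (C + (∑ k : Fin (E' + 2), E k) *
        (1 + ∑ i : Fin N, logHeight₁ (x n i))) / (D : ℝ) ^ n) atTop (𝓝 0) := by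
      have t0 : ∀ c : ℝ, Tendsto (fun n : ℕ => c / (D : ℝ) ^ n) atTop (𝓝 0) := fun c =>
        (tendsto_const_nhds).div_atTop (tendsto_pow_atTop_atTop_of_one_lt hD1)
      have t2 := (t0 C).add (((t0 1).add (tendsto_finsetSum Finset.univ fun i _ =>
        hx i)).const_mul (∑ k : Fin (E' + 2), E k))
      simp only [Finset.sum_const_zero, add_zero, mul_zero] at t2
      refine t2.congr fun n => ?_
      rw [← Finset.sum_div]
      ring
    have h9 : ∀ᶠ n in atTop, G / 2 < logHeight₁ (y n) / (D : ℝ) ^ n :=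
      hG.eventually_const_lt (by linarith)
    have h10 := hlim.eventually_lt_const (show (0 : ℝ) < G / 2 by linarith)
    filter_upwards [hlead, h9, h10] with n hn h11 h12 h0
    have h13 := hroot (fun k => MvPolynomial.eval (x n) (f.coeff k))
      (y n) (by rw [← hD']; exact hn) (by
        rw [hev n, hD'] at h0
        exact h0)
    have h14 : ∑ k : Fin (E' + 2), logHeight₁ (MvPolynomial.eval (x n)
        (f.coeff k)) ≤ (∑ k : Fin (E' + 2), E k) * (1 + ∑ i : Fin N, logHeight₁ (x n i)) := by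
      rw [Finset.sum_mul]
      exact Finset.sum_le_sum fun k _ => hE k _
    have hpos : (0 : ℝ) < (D : ℝ) ^ n := by positivity
    have h15 : logHeight₁ (y n) / (D : ℝ) ^ n ≤ (C + (∑ k : Fin (E' + 2), E k) *
        (1 + ∑ i : Fin N, logHeight₁ (x n i))) / (D : ℝ) ^ n :=
      div_le_div_of_nonneg_right (h13.trans (by linarith)) hpos.le
    linarith

/-- small archimedean size -/
lemma liou_lim {N : ℕ} (x : ℕ → Fin N → L) (D : ℕ) (hD : 2 ≤ D)
    (hx : ∀ i, Tendsto (fun n => logHeight₁ (x n i) / (D : ℝ) ^ n) atTop (𝓝 0))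
    (F : MvPolynomial (Fin N) L) : Tendsto
      (fun n => Real.log ‖σ (MvPolynomial.eval (x n) F)‖ / (D : ℝ) ^ n) atTop (𝓝 0) := by
  have hD1 : (1 : ℝ) < D := by exact_mod_cast (by omega : 1 < D)
  obtain ⟨C, hC, hb⟩ := Pool.Agent.X261.ZH.mv_bound F
  have t0 : Tendsto (fun n : ℕ => (1 : ℝ) / (D : ℝ) ^ n) atTop (𝓝 0) :=
    (tendsto_const_nhds).div_atTop (tendsto_pow_atTop_atTop_of_one_lt hD1)
  have t2 := (t0.add (tendsto_finsetSum Finset.univ fun i _ => hx i)).const_mul C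
  simp only [Finset.sum_const_zero, add_zero, mul_zero] at t2
  refine squeeze_zero_norm (fun n => ?_) t2
  have hpos : (0 : ℝ) < (D : ℝ) ^ n := by positivity
  rw [Real.norm_eq_abs, abs_div, abs_of_pos hpos, ← Finset.sum_div, ← add_div, ← mul_div_assoc]
  exact div_le_div_of_nonneg_right ((liouville σ _).trans (hb _)) hpos.le

end

end Pool.Agent.X261.ZM

namespace Pool.Agent.X261.ZM

open Filter Topology Height

section
variable {L : Type*} [Field L] [NumberField L] (σ : L →+* ℂ)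

/-- the possible archimedean rates -/
def Lam {N : ℕ} (d : Fin N → ℕ) (G : Fin N → ℝ) (D : ℕ) : Set ℝ :=
  Set.range fun k : Fin N → ℤ => ∑ i, (if d i = D then (k i : ℝ) * G i else 0)

lemma small_lim (h : ℕ → ℝ) (d D : ℕ) (hd : 2 ≤ d) (hlt : d < D) (H : ℝ)
    (hH : Tendsto (fun n => h n / (d : ℝ) ^ n) atTop (𝓝 H)) :
    Tendsto (fun n => h n / (D : ℝ) ^ n) atTop (𝓝 0) := by
  have hd' : (2 : ℝ) ≤ d := by exact_mod_cast hd
  have hD' : (d : ℝ) < D := by exact_mod_cast hlt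
  have h7 := tendsto_pow_atTop_nhds_zero_of_lt_one
    (div_nonneg (Nat.cast_nonneg d) (by linarith : (0 : ℝ) ≤ D))
    ((div_lt_one (by linarith)).2 hD')
  have h8 := hH.mul h7
  rw [mul_zero] at h8
  refine h8.congr fun n => ?_
  have hei : (d : ℝ) ^ n ≠ 0 := pow_ne_zero _ (by linarith)
  rw [div_pow]
  field_simp

lemma mixed : ∀ (N : ℕ) (d : Fin N → ℕ), (∀ i, 2 ≤ d i) → Antitone d →
    ∀ (x : ℕ → Fin N → L) (Ar : Fin N → Prop) (H G : Fin N → ℝ), (∀ i, 0 < H i) →
    (∀ i, Tendsto (fun n => logHeight₁ (x n i) / (d i : ℝ) ^ n) atTop (𝓝 (H i))) →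
    (∀ i, Ar i → (∀ n, x n i ≠ 0) ∧
      Tendsto (fun n => Real.log ‖σ (x n i)‖ / (d i : ℝ) ^ n) atTop (𝓝 (G i))) →
    (∀ i j, i ≠ j → d i = d j → Ar i) →
    (∀ (k : Fin N → ℤ) (D : ℕ), (∀ i, d i = D → Ar i) → (∃ i, d i = D ∧ k i ≠ 0) →
      ∑ i, (if d i = D then (k i : ℝ) * G i else 0) ≠ 0) →
    (∀ F : MvPolynomial (Fin N) L, F ≠ 0 → ∀ᶠ n in atTop, MvPolynomial.eval (x n) F ≠ 0) ∧
    ∀ D, 2 ≤ D → (∀ i, d i ≤ D) → (∀ i, d i = D → Ar i) →
      ∀ F : MvPolynomial (Fin N) L, F ≠ 0 → ∃ l ∈ Lam d G D, Tendsto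
        (fun n => Real.log ‖σ (MvPolynomial.eval (x n) F)‖ / (D : ℝ) ^ n) atTop (𝓝 l) := by
  intro N
  induction N with
  | zero =>
    intro d _ _ x Ar H G _ _ _ _ _
    refine ⟨fun F hF => Eventually.of_forall fun n h0 => hF ?_, fun D hD _ _ F _ => ?_⟩
    · rw [MvPolynomial.eq_C_of_isEmpty F, MvPolynomial.eval_C] at h0
      rw [MvPolynomial.eq_C_of_isEmpty F, h0, map_zero]
    · exact ⟨0, ⟨fun _ => 0, by simp⟩, liou_lim σ x D hD (fun i => i.elim0) F⟩
  | succ N ih =>
    intro d hd hanti x Ar H G hH0 hH hG hgr hind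
    obtain ⟨ih1, ih2⟩ := ih (fun i => d i.succ) (fun i => hd _)
      (fun i j hij => hanti (Fin.succ_le_succ_iff.2 hij)) (fun n i => x n i.succ)
      (fun i => Ar i.succ) (fun i => H i.succ) (fun i => G i.succ) (fun i => hH0 _)
      (fun i => hH _) (fun i => hG _) (fun i j hij h => hgr _ _
        (fun h' => hij (Fin.succ_injective _ h')) h) (by
      rintro k D hD ⟨i, hi, hki⟩ h0
      by_cases h1 : d 0 = D
      · refine hind (Fin.cons 0 k) D ?_ ⟨i.succ, hi, by simpa using hki⟩ ?_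
        · intro j hj
          refine Fin.cases (fun hj => ?_) (fun j hj => hD j hj) j hj
          exact hgr 0 i.succ (Fin.succ_ne_zero i).symm (hj.trans hi.symm)
        · rw [Fin.sum_univ_succ]
          simpa using h0
      · refine hind (Fin.cons 0 k) D ?_ ⟨i.succ, hi, by simpa using hki⟩ ?_
        · intro j hj
          exact Fin.cases (fun hj => absurd hj h1) (fun j hj => hD j hj) j hj
        · rw [Fin.sum_univ_succ]
          simpa using h0)
    have hle : ∀ i, d i ≤ d 0 := fun i => hanti (Fin.zero_le i)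
    have hcons : ∀ n, (Fin.cons (x n 0) (fun i : Fin N => x n i.succ) : Fin (N + 1) → L) = x n :=
      fun n => Fin.cons_self_tail (x n)
    have hbig : ∀ D, 2 ≤ D → d 0 < D → ∀ F : MvPolynomial (Fin (N + 1)) L, ∃ l ∈ Lam d G D, Tendsto
        (fun n => Real.log ‖σ (MvPolynomial.eval (x n) F)‖ / (D : ℝ) ^ n) atTop (𝓝 l) := by
      intro D hD hlt F
      exact ⟨0, ⟨fun _ => 0, by simp⟩, liou_lim σ x D hD (fun i =>
        small_lim _ (d i) D (hd i) (lt_of_le_of_lt (hle i) hlt) (H i) (hH i)) F⟩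
    by_cases hA : Ar 0
    · have hAr : ∀ i, d i = d 0 → Ar i := by
        intro i hi
        by_cases h0 : i = 0
        · rw [h0]
          exact hA
        · exact hgr i 0 h0 hi
      have hst : ∀ F : MvPolynomial (Fin (N + 1)) L, F ≠ 0 → _ := fun F hF =>
        step_arch σ (fun n i => x n (Fin.succ i)) (d 0) (hd 0)
          (Lam (fun i : Fin N => d i.succ) (fun i => G i.succ) (d 0)) ih1
          (ih2 (d 0) (hd 0) (fun i => hle _) (fun i hi => hAr _ hi)) (fun n => x n 0) (hG 0 hA).1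
          (G 0) (hG 0 hA).2 (by
          rintro _ ⟨k, rfl⟩ _ ⟨k', rfl⟩ j j' hjj
          by_contra hne
          refine hind (Fin.cons ((j : ℤ) - j') fun i => k i - k' i) (d 0) hAr ⟨0, rfl, ?_⟩ ?_
          · simp only [Fin.cons_zero]
            intro h0
            exact hne (by omega)
          · rw [Fin.sum_univ_succ, if_pos rfl]
            simp only [Fin.cons_zero, Fin.cons_succ]
            have e1 : ∑ i : Fin N, (if d i.succ = d 0 then ((k i - k' i : ℤ) : ℝ) * G i.succ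
                else 0) = (∑ i : Fin N, (if d i.succ = d 0 then (k i : ℝ) * G i.succ else 0)) -
                ∑ i : Fin N, (if d i.succ = d 0 then (k' i : ℝ) * G i.succ else 0) := by
              rw [← Finset.sum_sub_distrib]
              refine Finset.sum_congr rfl fun i _ => ?_
              split_ifs
              · push_cast
                ring
              · simp
            rw [e1]
            push_cast
            simp only at hjj
            linarith) F hF
      simp only [hcons] at hst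
      refine ⟨fun F hF => (hst F hF).1, fun D hD hDi _ F hF => ?_⟩
      rcases (hDi 0).lt_or_eq with hlt | heq
      · exact hbig D hD hlt F
      · subst heq
        obtain ⟨-, l, ⟨k, rfl⟩, j, hlim⟩ := hst F hF
        refine ⟨_, ⟨Fin.cons (j : ℤ) k, rfl⟩, ?_⟩
        simp only at hlim ⊢
        rw [Fin.sum_univ_succ, if_pos rfl]
        simp only [Fin.cons_zero, Fin.cons_succ]
        convert hlim using 2
        push_cast
        ring
    · have hne : ∀ i : Fin N, d i.succ < d 0 := fun i =>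
        lt_of_le_of_ne (hle _) fun h => hA (hgr 0 i.succ (Fin.succ_ne_zero i).symm h.symm)
      have hst : ∀ F : MvPolynomial (Fin (N + 1)) L, F ≠ 0 → _ := fun F hF =>
        step_height (fun n i => x n (Fin.succ i)) (d 0) (hd 0) ih1
          (fun i => small_lim _ _ _ (hd _) (hne i) _ (hH i.succ)) (fun n => x n 0) (H 0) (hH0 0)
          (hH 0) F hF
      simp only [hcons] at hst
      refine ⟨hst, fun D hD hDi hAr F hF => ?_⟩
      rcases (hDi 0).lt_or_eq with hlt | heq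
      · exact hbig D hD hlt F
      · exact absurd (hAr 0 heq) hA

lemma mixed' (N : ℕ) (d : Fin N → ℕ) (hd : ∀ i, 2 ≤ d i)
    (x : ℕ → Fin N → L) (Ar : Fin N → Prop) (H G : Fin N → ℝ) (hH0 : ∀ i, 0 < H i)
    (hH : ∀ i, Tendsto (fun n => logHeight₁ (x n i) / (d i : ℝ) ^ n) atTop (𝓝 (H i)))
    (hG : ∀ i, Ar i → (∀ n, x n i ≠ 0) ∧
      Tendsto (fun n => Real.log ‖σ (x n i)‖ / (d i : ℝ) ^ n) atTop (𝓝 (G i)))
    (hgr : ∀ i j, i ≠ j → d i = d j → Ar i)
    (hind : ∀ (k : Fin N → ℤ) (D : ℕ), (∀ i, d i = D → Ar i) → (∃ i, d i = D ∧ k i ≠ 0) →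
      ∑ i, (if d i = D then (k i : ℝ) * G i else 0) ≠ 0)
    (F : MvPolynomial (Fin N) L) (hF : F ≠ 0) : ∀ᶠ n in atTop, MvPolynomial.eval (x n) F ≠ 0 := by
  obtain ⟨τ, hτ⟩ : ∃ τ : Equiv.Perm (Fin N), Antitone (d ∘ τ) := by
    refine ⟨Fin.revPerm.trans (Tuple.sort d), ?_⟩
    intro i j hij
    exact Tuple.monotone_sort d (Fin.rev_le_rev.2 hij)
  have h1 := (mixed σ N (d ∘ τ) (fun i => hd _) hτ (fun n => x n ∘ τ) (fun i => Ar (τ i))
    (H ∘ τ) (G ∘ τ) (fun i => hH0 _) (fun i => hH (τ i)) (fun i => hG (τ i))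
    (fun i j hij h => hgr _ _ (fun h' => hij (τ.injective h')) h) (by
      rintro k D hD ⟨i, hi, hki⟩ h0
      refine hind (k ∘ τ.symm) D (fun j hj => ?_) ⟨τ i, hi, by simpa using hki⟩ ?_
      · have := hD (τ.symm j) (by simpa using hj)
        simpa using this
      · rw [← Equiv.sum_comp τ]
        refine Eq.trans (Finset.sum_congr rfl fun i _ => ?_) h0
        simp)).1 (MvPolynomial.rename τ.symm F) (by
      intro h0
      exact hF ((MvPolynomial.rename_injective _ τ.symm.injective) (by rw [h0, map_zero])))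
  filter_upwards [h1] with n hn
  rw [MvPolynomial.eval_rename] at hn
  have h2 : (x n ∘ τ) ∘ τ.symm = x n := by
    funext i
    simp
  rwa [h2] at hn

/-- growth of the heights in an infinite orbit -/
lemma growth_inf {d : ℕ} (hd : 2 ≤ d) {p q : Polynomial L} (hc : IsCoprime p q)
    (h : max p.natDegree q.natDegree = d) (α : L)
    (hinf : (Set.range fun n : ℕ => (fun x => p.eval x / q.eval x)^[n] α).Infinite) :
    ∃ H : ℝ, 0 < H ∧ Tendsto (fun n =>
      logHeight₁ ((fun x => p.eval x / q.eval x)^[n] α) / (d : ℝ) ^ n) atTop (𝓝 H) := by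
  obtain ⟨B, hB⟩ := Pool.Agent.X261.ZH.orbit_height hd hc h
  obtain ⟨m, hm⟩ : ∃ m, B < logHeight₁ ((fun x => p.eval x / q.eval x)^[m] α) := by
    by_contra hcon
    push Not at hcon
    refine hinf ((NumberField.finite_setOfPred_logHeight₁_le (K := L) B).subset ?_)
    rintro _ ⟨n, rfl⟩
    exact hcon n
  obtain ⟨-, -, -, G, hG0, hG⟩ := hB _ hm
  have hd0 : (0 : ℝ) < (d : ℝ) ^ m := by
    have : (0 : ℝ) < d := by exact_mod_cast (by omega : 0 < d)
    positivity
  refine ⟨G / (d : ℝ) ^ m, by positivity, ?_⟩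
  rw [← tendsto_add_atTop_iff_nat m]
  refine (hG.div_const ((d : ℝ) ^ m)).congr fun n => ?_
  rw [← Function.iterate_add_apply, pow_add, div_div]

omit [NumberField L] in
/-- a positive archimedean rate gives an infinite orbit -/
lemma infinite_of_rate {f : L → L} {d : ℕ} (hd : 2 ≤ d) (α : L) (G : ℝ) (hG0 : 0 < G)
    (hG : Tendsto (fun n => Real.log ‖σ (f^[n] α)‖ / (d : ℝ) ^ n) atTop (𝓝 G)) :
    (Set.range fun n : ℕ => f^[n] α).Infinite := by
  intro hfin
  obtain ⟨B, hB⟩ := (hfin.image fun y => Real.log ‖σ y‖).bddAbove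
  have hD1 : (1 : ℝ) < d := by exact_mod_cast (by omega : 1 < d)
  have h0 : Tendsto (fun n : ℕ => B / (d : ℝ) ^ n) atTop (𝓝 0) :=
    (tendsto_const_nhds).div_atTop (tendsto_pow_atTop_atTop_of_one_lt hD1)
  have h1 := le_of_tendsto_of_tendsto' hG h0 fun n => by
    have hpos : (0 : ℝ) < (d : ℝ) ^ n := by positivity
    exact div_le_div_of_nonneg_right (hB ⟨_, ⟨n, rfl⟩, rfl⟩) hpos.le
  linarith

end

end Pool.Agent.X261.ZM

namespace Pool.Agent.X261.ZM

open Filter Topology Height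
open Pool.Agent.X261.ZD (Exc qq qq_prime qq_ge qq_inj good_block log_indep esc_any esc_exc)

theorem main_ZM {L : Type*} [Field L] [NumberField L] (σ : L →+* ℂ)
    (N : ℕ) (d : Fin N → ℕ) (hd : ∀ i, 2 ≤ d i)
    (p q : Fin N → Polynomial L) (hc : ∀ i, IsCoprime (p i) (q i))
    (hmax : ∀ i, max (p i).natDegree (q i).natDegree = d i)
    (hgr : ∀ i j, i ≠ j → d i = d j → (q i).natDegree = 0 ∧
      (Exc (fun x => (p i).eval x / (q i).eval x) (d i) ∨
        Exc (fun x => (p j).eval x / (q j).eval x) (d j))) :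
    ∃ α : Fin N → L,
      (∀ i n, (q i).eval ((fun x => (p i).eval x / (q i).eval x)^[n] (α i)) ≠ 0) ∧
      ∀ F : MvPolynomial (Fin N) L, F ≠ 0 → ∀ᶠ n in atTop, MvPolynomial.eval
          (fun i => (fun x => (p i).eval x / (q i).eval x)^[n] (α i)) F ≠ 0 := by
  classical
  have hq0 : ∀ i, q i ≠ 0 := by
    intro i h0
    have h1 := hc i
    rw [h0, isCoprime_zero_right] at h1
    have h2 := Polynomial.natDegree_eq_zero_of_isUnit h1
    have h3 := hmax i
    have h4 := hd i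
    rw [h0, h2, Polynomial.natDegree_zero] at h3
    simp at h3
    omega
  have hdeg : ∀ i, (q i).natDegree = 0 → (q i).natDegree + d i = (p i).natDegree := by
    intro i h
    have := hmax i
    rw [h] at this ⊢
    simp at this
    omega
  -- rates of the non-exceptional polynomials
  have hA : ∀ i, ∃ (α : L) (G : ℝ), 0 < G ∧ ((q i).natDegree = 0 →
      (∀ n, (q i).eval ((fun x => (p i).eval x / (q i).eval x)^[n] α) ≠ 0) ∧
      (∀ n, (fun x => (p i).eval x / (q i).eval x)^[n] α ≠ 0) ∧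
      Tendsto (fun n => Real.log ‖σ ((fun x => (p i).eval x / (q i).eval x)^[n] α)‖ /
        (d i : ℝ) ^ n) atTop (𝓝 G)) := by
    intro i
    by_cases h : (q i).natDegree = 0
    · obtain ⟨α, G, h1, h2⟩ := esc_any σ (p i) (q i) (hq0 i) (d i) (hdeg i h) (hd i)
      exact ⟨α, G, h1, fun _ => h2⟩
    · exact ⟨0, 1, one_pos, fun h' => absurd h' h⟩
  choose αA GA hGA hA using hA
  have hB : ∀ i, ∃ p0 : ℕ, Exc (fun x => (p i).eval x / (q i).eval x) (d i) →
      ∀ r : ℕ, p0 ≤ r → 2 ≤ r → ∃ α : L,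
      (∀ n, (q i).eval ((fun x => (p i).eval x / (q i).eval x)^[n] α) ≠ 0) ∧
      (∀ n, (fun x => (p i).eval x / (q i).eval x)^[n] α ≠ 0) ∧
      Tendsto (fun n => Real.log ‖σ ((fun x => (p i).eval x / (q i).eval x)^[n] α)‖ /
        (d i : ℝ) ^ n) atTop (𝓝 (Real.log r)) := by
    intro i
    by_cases h : Exc (fun x => (p i).eval x / (q i).eval x) (d i)
    · obtain ⟨p0, hp0⟩ := esc_exc σ (p i) (q i) (hq0 i) (d i) (hd i) h
      exact ⟨p0, fun _ => hp0⟩
    · exact ⟨0, fun h' => absurd h' h⟩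
  choose p0 hp0 using hB
  obtain ⟨b, hb⟩ := good_block N (∑ i, p0 i) GA hGA
  have hM : ∀ i, p0 i ≤ qq N (∑ i, p0 i) b i := fun i =>
    (Finset.single_le_sum (fun _ _ => Nat.zero_le _) (Finset.mem_univ i)).trans (qq_ge _ _ _ _)
  obtain ⟨G, hG⟩ : ∃ G : Fin N → ℝ, G = fun i =>
    if Exc (fun x => (p i).eval x / (q i).eval x) (d i) then
      Real.log (qq N (∑ i, p0 i) b i) else GA i := ⟨_, rfl⟩
  have hall : ∀ i, ∃ (α : L) (H : ℝ),
      (∀ n, (q i).eval ((fun x => (p i).eval x / (q i).eval x)^[n] α) ≠ 0) ∧ 0 < H ∧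
      Tendsto (fun n => logHeight₁ ((fun x => (p i).eval x / (q i).eval x)^[n] α) /
        (d i : ℝ) ^ n) atTop (𝓝 H) ∧
      ((q i).natDegree = 0 → (∀ n, (fun x => (p i).eval x / (q i).eval x)^[n] α ≠ 0) ∧
      Tendsto (fun n => Real.log ‖σ ((fun x => (p i).eval x / (q i).eval x)^[n] α)‖ /
        (d i : ℝ) ^ n) atTop (𝓝 (G i))) := by
    intro i
    by_cases hq : (q i).natDegree = 0
    · have h5 : ∃ α : L,
          (∀ n, (q i).eval ((fun x => (p i).eval x / (q i).eval x)^[n] α) ≠ 0) ∧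
          (∀ n, (fun x => (p i).eval x / (q i).eval x)^[n] α ≠ 0) ∧
          Tendsto (fun n => Real.log ‖σ ((fun x => (p i).eval x / (q i).eval x)^[n] α)‖ /
            (d i : ℝ) ^ n) atTop (𝓝 (G i)) := by
        by_cases h : Exc (fun x => (p i).eval x / (q i).eval x) (d i)
        · obtain ⟨α, h1, h2, h3⟩ := hp0 i h _ (hM i) (qq_prime _ _ _ _).two_le
          refine ⟨α, h1, h2, ?_⟩
          rw [hG]
          simp only [if_pos h]
          exact h3
        · refine ⟨αA i, (hA i hq).1, (hA i hq).2.1, ?_⟩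
          rw [hG]
          simp only [if_neg h]
          exact (hA i hq).2.2
      obtain ⟨α, h1, h2, h3⟩ := h5
      have hGi : 0 < G i := by
        rw [hG]
        by_cases h : Exc (fun x => (p i).eval x / (q i).eval x) (d i)
        · simp only [if_pos h]
          exact Real.log_pos (by exact_mod_cast (qq_prime _ _ _ _).one_lt)
        · simp only [if_neg h]
          exact hGA i
      obtain ⟨H, hH0, hH⟩ := growth_inf (hd i) (hc i) (hmax i) α
        (infinite_of_rate σ (hd i) α (G i) hGi h3)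
      exact ⟨α, H, h1, hH0, hH, fun _ => ⟨h2, h3⟩⟩
    · obtain ⟨B, hB⟩ := Pool.Agent.X261.ZH.orbit_height (hd i) (hc i) (hmax i)
      obtain ⟨α, hα⟩ : ∃ α : L, B < logHeight₁ α := by
        by_contra hcon
        push Not at hcon
        exact Set.infinite_univ
          ((NumberField.finite_setOfPred_logHeight₁_le (K := L) B).subset fun x _ => hcon x)
      obtain ⟨h1, -, -, H, hH0, hH⟩ := hB α hα
      exact ⟨α, H, h1, hH0, hH, fun h => absurd h hq⟩
  choose α H h1 hH0 hH h2 using hall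
  refine ⟨α, h1, fun F hF => ?_⟩
  refine mixed' σ N d hd (fun n i => (fun x => (p i).eval x / (q i).eval x)^[n] (α i))
    (fun i => (q i).natDegree = 0) H G hH0 hH h2 (fun i j hij h => (hgr i j hij h).1) ?_ F hF
  rintro k D hAr ⟨i0, hi0, hki0⟩ hsum
  by_cases hj : ∃ j, d j = D ∧ k j ≠ 0 ∧ ¬ Exc (fun x => (p j).eval x / (q j).eval x) (d j)
  · obtain ⟨j, hj1, hj2, hj3⟩ := hj
    apply hb j
    refine ⟨k j, fun i => if d i = D ∧ i ≠ j then - k i else 0, hj2, ?_⟩
    rw [← Finset.add_sum_erase _ _ (Finset.mem_univ j), if_pos hj1] at hsum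
    have hGj : G j = GA j := by
      rw [hG]
      simp only [if_neg hj3]
    rw [hGj] at hsum
    rw [eq_neg_of_add_eq_zero_left hsum, ← Finset.sum_neg_distrib,
      ← Finset.add_sum_erase Finset.univ _ (Finset.mem_univ j)]
    simp only [ne_eq, not_true_eq_false, and_false, if_false, Int.cast_zero, zero_mul, zero_add]
    refine Finset.sum_congr rfl fun i hi => ?_
    have hij : i ≠ j := Finset.ne_of_mem_erase hi
    by_cases hiD : d i = D
    · have hei : Exc (fun x => (p i).eval x / (q i).eval x) (d i) :=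
        (hgr i j hij (hiD.trans hj1.symm)).2.resolve_right hj3
      rw [if_pos hiD, if_pos ⟨hiD, hij⟩, hG]
      simp only [if_pos hei]
      push_cast
      ring
    · rw [if_neg hiD, if_neg (fun h => hiD h.1)]
      simp
  · push Not at hj
    have h4 := log_indep (fun i => qq N (∑ i, p0 i) b i) (fun i => qq_prime _ _ _ _)
      (fun i i' h => (qq_inj _ _ _ _ _ _ h).2) (fun i => if d i = D then k i else 0) (by
      rw [← hsum]
      refine Finset.sum_congr rfl fun i _ => ?_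
      by_cases hiD : d i = D
      · rw [if_pos hiD, if_pos hiD]
        by_cases hki : k i = 0
        · simp [hki]
        · rw [hG]
          simp only [if_pos (hj i hiD hki)]
      · rw [if_neg hiD, if_neg hiD]
        simp) i0
    simp only [if_pos hi0] at h4
    exact hki0 h4

end Pool.Agent.X261.ZM
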